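import Mathlib

/-!
# An admissible basis which is an eigenbasis of neither of the two maps

Over `ℂ`, in the standard basis of `ℂ⁴`, let
`A = [0, -7, 0, 0; 4, 0, -3, 0; 0, 6, 0, -1; 0, 0, 7, 0]` and
`A* = [0, 7/2, 0, 0; 2, 0, 3, 0; 0, 6, 0, 2; 0, 0, 14, 0]`.
-/

set_option autoImplicit false
set_option linter.unusedSimpArgs false
set_option linter.unreachableTactic false
set_option linter.unusedTactic false

namespace Pool.Agent.Results.MP_54d771_al.MixedBasis

variable {K : Type*} [Field K] {V : Type*} [AddCommGroup V] [Module K V] {d : ℕ}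

/-- A square matrix is tridiagonal. -/
def IsTridiagonal (M : Matrix (Fin (d + 1)) (Fin (d + 1)) K) : Prop :=
  ∀ i j : Fin (d + 1), ((i : ℕ) + 1 < j ∨ (j : ℕ) + 1 < i) → M i j = 0

/-- A square matrix is irreducible tridiagonal. -/
def IsIrredTridiagonal (M : Matrix (Fin (d + 1)) (Fin (d + 1)) K) : Prop :=
  IsTridiagonal M ∧ ∀ i j : Fin (d + 1), ((i : ℕ) + 1 = j ∨ (j : ℕ) + 1 = i) → M i j ≠ 0

/-- All diagonal entries are zero. -/
def HasZeroDiagonal (M : Matrix (Fin (d + 1)) (Fin (d + 1)) K) : Prop := ∀ i, M i i = 0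

/-- `A, A*` is a Leonard pair of diameter `d` on `V`, where `θ 0, …, θ d` are the eigenvalues of `A`
and `θs 0, …, θs d` are the eigenvalues of `A*`, in the orders attached to the bases (i) and (ii),
and `a i = 0` and `a* i = 0` for all `i`: the diagonal entries of the matrix of `A` in an
eigenbasis `v 0, …, v d` of `A*` as in (ii) are zero, and the diagonal entries of the matrix of
`A*` in an eigenbasis of `A` as in (i) are zero. -/
def IsBipartiteLeonardPair (A As : Module.End K V) (θ θs : Fin (d + 1) → K) : Prop :=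
  (∃ b : Module.Basis (Fin (d + 1)) K V, LinearMap.toMatrix b b A = Matrix.diagonal θ ∧
      IsIrredTridiagonal (LinearMap.toMatrix b b As) ∧
      HasZeroDiagonal (LinearMap.toMatrix b b As)) ∧
    ∃ b : Module.Basis (Fin (d + 1)) K V, LinearMap.toMatrix b b As = Matrix.diagonal θs ∧
      IsIrredTridiagonal (LinearMap.toMatrix b b A) ∧ HasZeroDiagonal (LinearMap.toMatrix b b A)

/-- The basis `b` is admissible: the matrices of `A` and of `A*` in it are both tridiagonal with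
every diagonal entry equal to `0`. -/
def IsAdmissible (A As : Module.End K V) (b : Module.Basis (Fin (d + 1)) K V) : Prop :=
  (IsTridiagonal (LinearMap.toMatrix b b A) ∧ HasZeroDiagonal (LinearMap.toMatrix b b A)) ∧
    IsTridiagonal (LinearMap.toMatrix b b As) ∧ HasZeroDiagonal (LinearMap.toMatrix b b As)

/-- The basis `b` consists of eigenvectors of `X`. -/
def IsEigenbasis (X : Module.End K V) (b : Module.Basis (Fin (d + 1)) K V) : Prop :=
  ∀ i, ∃ c : K, X (b i) = c • b i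

/-- The basis given by the columns of an invertible matrix. -/
lemma exists_basis {n : ℕ} (P Q : Matrix (Fin n) (Fin n) K) (h : Q * P = 1) :
    ∃ b : Module.Basis (Fin n) K (Fin n → K), ∀ M : Matrix (Fin n) (Fin n) K,
      LinearMap.toMatrix b b M.mulVecLin = Q * M * P := by
  have h' : P * Q = 1 := mul_eq_one_comm.1 h
  let e : (Fin n → K) ≃ₗ[K] (Fin n → K) := Matrix.toLin'OfInv h h'
  refine ⟨(Pi.basisFun K (Fin n)).map e, fun M => ?_⟩
  ext i j
  rw [LinearMap.toMatrix_apply]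
  have h1 : ((Pi.basisFun K (Fin n)).map e) j = P.mulVec (Pi.single j 1) := by
    rw [Module.Basis.map_apply, Pi.basisFun_apply, ← Matrix.toLin'_apply]
    rfl
  have h2 : ∀ v, ((Pi.basisFun K (Fin n)).map e).repr v i = (Q.mulVec v) i := by
    intro v
    rw [← Matrix.toLin'_apply]
    rfl
  rw [h1, h2, Matrix.mulVecLin_apply, Matrix.mulVec_mulVec, Matrix.mulVec_mulVec,
    Matrix.mulVec_single_one, Matrix.mul_assoc]
  rfl

/-- `A` -/
noncomputable def mX : Matrix (Fin 4) (Fin 4) ℂ := !![0, -7, 0, 0; 4, 0, -3, 0; 0, 6, 0, -1; 0, 0, 7, 0]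

/-- `A*` -/
noncomputable def mY : Matrix (Fin 4) (Fin 4) ℂ := !![0, 7/2, 0, 0; 2, 0, 3, 0; 0, 6, 0, 2; 0, 0, 14, 0]

lemma trid_of_eq {M : Matrix (Fin 4) (Fin 4) ℂ} {a b c e f g : ℂ}
    (h : M = !![0, a, 0, 0; b, 0, c, 0; 0, e, 0, f; 0, 0, g, 0]) :
    IsTridiagonal (d := 3) M ∧ HasZeroDiagonal (d := 3) M := by
  subst h
  constructor
  · intro i j
    fin_cases i <;> fin_cases j <;> simp
  · intro i
    fin_cases i <;> simp

lemma irred_of_eq {M : Matrix (Fin 4) (Fin 4) ℂ} {a b c e f g : ℂ}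
    (h : M = !![0, a, 0, 0; b, 0, c, 0; 0, e, 0, f; 0, 0, g, 0]) (ha : a ≠ 0) (hb : b ≠ 0)
    (hc : c ≠ 0) (he : e ≠ 0) (hf : f ≠ 0) (hg : g ≠ 0) :
    IsIrredTridiagonal (d := 3) M ∧ HasZeroDiagonal (d := 3) M := by
  obtain ⟨h1, h2⟩ := trid_of_eq h
  refine ⟨⟨h1, ?_⟩, h2⟩
  subst h
  intro i j
  fin_cases i <;> fin_cases j <;> simp [ha, hb, hc, he, hf, hg]

lemma half {X Y P Q : Matrix (Fin 4) (Fin 4) ℂ} (h : Q * P = 1) {θ : Fin 4 → ℂ}
    (hX : X * P = P * Matrix.diagonal θ) {a b c e f g : ℂ}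
    (hY : Y * P = P * !![0, a, 0, 0; b, 0, c, 0; 0, e, 0, f; 0, 0, g, 0]) (ha : a ≠ 0)
    (hb : b ≠ 0) (hc : c ≠ 0) (he : e ≠ 0) (hf : f ≠ 0) (hg : g ≠ 0) :
    ∃ b : Module.Basis (Fin (3 + 1)) ℂ (Fin 4 → ℂ),
      LinearMap.toMatrix b b X.mulVecLin = Matrix.diagonal θ ∧
      IsIrredTridiagonal (LinearMap.toMatrix b b Y.mulVecLin) ∧
      HasZeroDiagonal (LinearMap.toMatrix b b Y.mulVecLin) := by
  obtain ⟨b, hb'⟩ := exists_basis P Q h
  refine ⟨b, ?_, ?_⟩
  · rw [hb', Matrix.mul_assoc, hX, ← Matrix.mul_assoc, h, Matrix.one_mul]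
  · rw [hb']
    refine irred_of_eq (a := a) (b := _) (c := c) (e := e) (f := f) (g := g) ?_ ha hb hc he hf hg
    rw [Matrix.mul_assoc, hY, ← Matrix.mul_assoc, h, Matrix.one_mul]

/-- The eigenvalues of `A`. -/
noncomputable def th : Fin 4 → ℂ := ![7 * Complex.I, 2 * Complex.I, -2 * Complex.I, -7 * Complex.I]

/-- The eigenvalues of `A*`. -/
def ths : Fin 4 → ℂ := ![7, 2, -2, -7]

lemma pair : IsBipartiteLeonardPair (d := 3) mX.mulVecLin mY.mulVecLin th ths := by
  have hI : Complex.I * Complex.I = -1 := Complex.I_mul_I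
  constructor
  · refine half (P := !![-Complex.I, 7 * Complex.I, -7 * Complex.I, Complex.I; -1, 2, 2, -1;
      Complex.I, 8 * Complex.I, -8 * Complex.I, -Complex.I; 1, 28, 28, 1])
      (Q := !![4/15 * Complex.I, -7/15, -7/30 * Complex.I, 1/30;
        -1/30 * Complex.I, 1/60, -1/30 * Complex.I, 1/60;
        1/30 * Complex.I, 1/60, 1/30 * Complex.I, 1/60;
        -4/15 * Complex.I, -7/15, 7/30 * Complex.I, 1/30])
      (a := -28 * Complex.I) (b := Complex.I / 2) (c := -5 * Complex.I) (e := 5 * Complex.I)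
      (f := -(Complex.I / 2)) (g := 28 * Complex.I) ?_ ?_ ?_ ?_ ?_ ?_ ?_ ?_ ?_
    · ext i j
      fin_cases i <;> fin_cases j <;>
        simp [Matrix.mul_apply, Fin.sum_univ_four] <;> ring_nf <;>
        simp [Complex.I_sq] <;> norm_num
    · ext i j
      fin_cases i <;> fin_cases j <;>
        simp [mX, mY, th, Matrix.mul_apply, Fin.sum_univ_four, Matrix.diagonal] <;> ring_nf <;>
        simp [Complex.I_sq] <;> norm_num
    · ext i j
      fin_cases i <;> fin_cases j <;>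
        simp [mX, mY, th, Matrix.mul_apply, Fin.sum_univ_four] <;> ring_nf <;>
        simp [Complex.I_sq] <;> norm_num
    all_goals simp [Complex.I_ne_zero]
  · refine half (P := !![1, -7, 7, -1; 2, -4, -4, 2; 4, 2, -2, -4; 8, 14, 14, 8])
      (Q := !![1/30, 7/60, 7/60, 1/30; -1/15, -1/15, 1/60, 1/60; 1/15, -1/15, -1/60, 1/60;
        -1/30, 7/60, -7/60, 1/30])
      (a := -7) (b := 2) (c := -5) (e := 5) (f := -2) (g := 7) ?_ ?_ ?_ ?_ ?_ ?_ ?_ ?_ ?_
    · ext i j
      fin_cases i <;> fin_cases j <;>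
        simp [Matrix.mul_apply, Fin.sum_univ_four] <;> norm_num
    · ext i j
      fin_cases i <;> fin_cases j <;>
        simp [mX, mY, ths, Matrix.mul_apply, Fin.sum_univ_four, Matrix.diagonal] <;> norm_num
    · ext i j
      fin_cases i <;> fin_cases j <;>
        simp [mX, mY, ths, Matrix.mul_apply, Fin.sum_univ_four] <;> norm_num
    all_goals norm_num

/-- The standard basis is an eigenbasis of neither of the two maps. -/
lemma not_eigen (q : ℂ) (hq : q ≠ 0) :
    ¬ IsEigenbasis (d := 3) (q • (mX.mulVecLin * mY.mulVecLin) - q⁻¹ • (mY.mulVecLin * mX.mulVecLin))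
      (Pi.basisFun ℂ (Fin 4)) := by
  intro h
  obtain ⟨c0, h0⟩ := h 0
  obtain ⟨c2, h2⟩ := h 2
  have e0 := congrFun h0 2
  have e2 := congrFun h2 0
  simp [mX, mY, Matrix.mulVec, dotProduct, Fin.sum_univ_four, Pi.single_apply] at e0 e2
  have h3 : q⁻¹ = 0 := by linear_combination -(e0 / 18) - 2 / 63 * e2
  exact inv_ne_zero hq h3

/-- There are a Leonard pair `A, A*` of diameter `3` on `ℂ⁴` with `a i = 0` and `a* i = 0` for all
`i`, and an admissible basis `b`, such that for every nonzero `q` (in particular for the `q` with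
`q² + q⁻² + 1 = (θ 0 - θ 3) / (θ 1 - θ 2)`) the basis `b` consists neither of eigenvectors of
`q A A* - q⁻¹ A* A` nor of eigenvectors of `q⁻¹ A A* - q A* A`. -/
theorem result : ∃ (A As : Module.End ℂ (Fin 4 → ℂ)) (θ θs : Fin (3 + 1) → ℂ),
    IsBipartiteLeonardPair A As θ θs ∧
    (θ 0 - θ 3) / (θ 1 - θ 2) = 7 / 2 ∧ (θs 0 - θs 3) / (θs 1 - θs 2) = 7 / 2 ∧
    ∃ b : Module.Basis (Fin (3 + 1)) ℂ (Fin 4 → ℂ), IsAdmissible A As b ∧
      ∀ q : ℂ, q ≠ 0 → ¬ IsEigenbasis (q • (A * As) - q⁻¹ • (As * A)) b ∧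
        ¬ IsEigenbasis (q⁻¹ • (A * As) - q • (As * A)) b := by
  refine ⟨mX.mulVecLin, mY.mulVecLin, th, ths, pair, ?_, ?_, Pi.basisFun ℂ (Fin 4), ?_,
    fun q hq => ⟨not_eigen q hq, ?_⟩⟩
  · have hI := Complex.I_ne_zero
    simp [th]
    field_simp
  · simp [ths]
    norm_num
  · have e : ∀ M : Matrix (Fin 4) (Fin 4) ℂ,
        LinearMap.toMatrix (Pi.basisFun ℂ (Fin 4)) (Pi.basisFun ℂ (Fin 4)) M.mulVecLin = M := by
      intro M
      rw [LinearMap.toMatrix_eq_toMatrix', ← Matrix.toLin'_apply', LinearMap.toMatrix'_toLin']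
    constructor
    · rw [e]
      exact trid_of_eq rfl
    · rw [e]
      exact trid_of_eq rfl
  · have h := not_eigen q⁻¹ (inv_ne_zero hq)
    rwa [inv_inv] at h

end Pool.Agent.Results.MP_54d771_al.MixedBasis
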